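import Mathlib

/-!
# MP_a31168_co: pairwise intersecting convex hulls with finite triple intersections

For every `n ≥ 5` there are a set `P` of `n` points of the plane and an admissible family of
`(n - 1) + ⌊(n - 1) / 2⌋ > n` subsets of `P`. So the bound `m ≤ n` asked for fails for every
`n ≥ 5`.

The points are the origin and the points `(1, i)`, `1 ≤ i ≤ n - 1`; the subsets are the pairs
`{0, (1, i)}` and the triples `{0, (1, 2j + 1), (1, 2j + 2)}`. The hulls of two different pairs, and
the hulls of two different triples, lie in cones which meet only in the origin. Among three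
different members two are of the same kind.
-/

set_option autoImplicit false

namespace Pool.Agent.Results.MP_a31168_co.TooManyHulls

open Finset

/-- A family `F` of subsets of the finite planar point set `P` is admissible: each member has more
than one and fewer than `|P|` points, the convex hulls of any two members intersect, and the
convex hulls of any three members have no common point outside `P`. -/
structure Admissible (P : Finset (ℝ × ℝ)) (F : Finset (Finset (ℝ × ℝ))) : Prop where
  sub : ∀ S ∈ F, S ⊆ P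
  card : ∀ S ∈ F, 1 < S.card ∧ S.card < P.card
  inter : ∀ S ∈ F, ∀ T ∈ F, S ≠ T →
    (convexHull ℝ (S : Set (ℝ × ℝ)) ∩ convexHull ℝ (T : Set (ℝ × ℝ))).Nonempty
  triple : ∀ S ∈ F, ∀ T ∈ F, ∀ U ∈ F, S ≠ T → S ≠ U → T ≠ U →
    convexHull ℝ (S : Set (ℝ × ℝ)) ∩ convexHull ℝ (T : Set (ℝ × ℝ)) ∩
      convexHull ℝ (U : Set (ℝ × ℝ)) ⊆ (P : Set (ℝ × ℝ))

/-- the origin -/
noncomputable def o : ℝ × ℝ := (0, 0)

/-- the point `(1, i)` -/
noncomputable def q (i : ℕ) : ℝ × ℝ := (1, (i : ℝ))

theorem q_inj {i j : ℕ} (h : q i = q j) : i = j := by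
  have := congrArg Prod.snd h
  simpa [q] using this

theorem o_ne_q (i : ℕ) : o ≠ q i := by
  intro h
  have := congrArg Prod.fst h
  simp [o, q] at this

/-- the pairs -/
noncomputable def seg (i : ℕ) : Finset (ℝ × ℝ) := {o, q i}

/-- the triples -/
noncomputable def tri (j : ℕ) : Finset (ℝ × ℝ) := {o, q (2 * j + 1), q (2 * j + 2)}

/-- the point set -/
noncomputable def pts (n : ℕ) : Finset (ℝ × ℝ) := insert o ((Icc 1 (n - 1)).image q)

/-- the family -/
noncomputable def fam (n : ℕ) : Finset (Finset (ℝ × ℝ)) :=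
  (Icc 1 (n - 1)).image seg ∪ (range ((n - 1) / 2)).image tri

theorem seg_card (i : ℕ) : (seg i).card = 2 := card_pair (o_ne_q i)

theorem tri_card (j : ℕ) : (tri j).card = 3 := by
  unfold tri
  rw [card_insert_of_notMem, card_pair]
  · intro h
    have := q_inj h
    omega
  · intro h
    rw [mem_insert, mem_singleton] at h
    rcases h with h | h
    · exact o_ne_q _ h
    · exact o_ne_q _ h

theorem pts_card (n : ℕ) (hn : 1 ≤ n) : (pts n).card = n := by
  unfold pts
  rw [card_insert_of_notMem, card_image_of_injective _ (fun _ _ h => q_inj h), Nat.card_Icc]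
  · omega
  · intro h
    obtain ⟨i, _, h⟩ := mem_image.1 h
    exact o_ne_q i h.symm

/-- the cone of all points with slope between `a` and `b` -/
def cone (a b : ℝ) : Set (ℝ × ℝ) := {x | 0 ≤ x.1 ∧ a * x.1 ≤ x.2 ∧ x.2 ≤ b * x.1}

theorem cone_convex (a b : ℝ) : Convex ℝ (cone a b) := by
  rintro ⟨x1, x2⟩ ⟨h1, h2, h3⟩ ⟨y1, y2⟩ ⟨h4, h5, h6⟩ s t hs ht _
  simp only [cone, Set.mem_ofPred_eq, Prod.smul_mk, smul_eq_mul, Prod.mk_add_mk] at *
  refine ⟨by positivity, ?_, ?_⟩
  · nlinarith [mul_le_mul_of_nonneg_left h2 hs, mul_le_mul_of_nonneg_left h5 ht]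
  · nlinarith [mul_le_mul_of_nonneg_left h3 hs, mul_le_mul_of_nonneg_left h6 ht]

theorem seg_hull (i : ℕ) : convexHull ℝ (seg i : Set (ℝ × ℝ)) ⊆ cone i i := by
  apply convexHull_min _ (cone_convex _ _)
  intro x hx
  simp only [seg, coe_insert, coe_singleton, Set.mem_insert_iff, Set.mem_singleton_iff] at hx
  rcases hx with rfl | rfl <;> simp [cone, o, q]

theorem tri_hull (j : ℕ) : convexHull ℝ (tri j : Set (ℝ × ℝ)) ⊆
    cone (2 * j + 1) (2 * j + 2) := by
  apply convexHull_min _ (cone_convex _ _)
  intro x hx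
  simp only [tri, coe_insert, coe_singleton, Set.mem_insert_iff, Set.mem_singleton_iff] at hx
  rcases hx with rfl | rfl | rfl <;> simp [cone, o, q]

theorem cone_inter {a b c d : ℝ} (h : b < c ∨ d < a) {x : ℝ × ℝ} (h1 : x ∈ cone a b)
    (h2 : x ∈ cone c d) : x = o := by
  obtain ⟨x1, x2⟩ := x
  obtain ⟨h0, h3, h4⟩ := h1
  obtain ⟨_, h5, h6⟩ := h2
  simp only at h0 h3 h4 h5 h6
  have hx : x1 = 0 := by
    by_contra hne
    have hpos : 0 < x1 := lt_of_le_of_ne h0 (Ne.symm hne)
    rcases h with h | h
    · nlinarith [mul_lt_mul_of_pos_right h hpos]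
    · nlinarith [mul_lt_mul_of_pos_right h hpos]
  subst hx
  have : x2 = 0 := by linarith
  rw [this]
  rfl

theorem seg_seg {i j : ℕ} (h : seg i ≠ seg j) {x : ℝ × ℝ}
    (h1 : x ∈ convexHull ℝ (seg i : Set (ℝ × ℝ)))
    (h2 : x ∈ convexHull ℝ (seg j : Set (ℝ × ℝ))) : x = o := by
  have hij : i ≠ j := fun e => h (by rw [e])
  refine cone_inter ?_ (seg_hull i h1) (seg_hull j h2)
  rcases Nat.lt_or_gt_of_ne hij with h | h
  · left; exact_mod_cast h
  · right; exact_mod_cast h

theorem tri_tri {i j : ℕ} (h : tri i ≠ tri j) {x : ℝ × ℝ}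
    (h1 : x ∈ convexHull ℝ (tri i : Set (ℝ × ℝ)))
    (h2 : x ∈ convexHull ℝ (tri j : Set (ℝ × ℝ))) : x = o := by
  have hij : i ≠ j := fun e => h (by rw [e])
  refine cone_inter ?_ (tri_hull i h1) (tri_hull j h2)
  rcases Nat.lt_or_gt_of_ne hij with h | h
  · left
    have : 2 * i + 2 < 2 * j + 1 := by omega
    exact_mod_cast this
  · right
    have : 2 * j + 2 < 2 * i + 1 := by omega
    exact_mod_cast this

theorem o_mem {n : ℕ} {S : Finset (ℝ × ℝ)} (h : S ∈ fam n) : o ∈ S := by
  rcases mem_union.1 h with h | h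
  · obtain ⟨i, _, rfl⟩ := mem_image.1 h
    simp [seg]
  · obtain ⟨i, _, rfl⟩ := mem_image.1 h
    simp [tri]

theorem admissible (n : ℕ) (hn : 5 ≤ n) : Admissible (pts n) (fam n) := by
  constructor
  · intro S hS
    rcases mem_union.1 hS with h | h
    · obtain ⟨i, hi, rfl⟩ := mem_image.1 h
      rw [mem_Icc] at hi
      intro x hx
      simp only [seg, mem_insert, mem_singleton] at hx
      rcases hx with rfl | rfl
      · exact mem_insert_self _ _
      · exact mem_insert_of_mem (mem_image_of_mem _ (mem_Icc.2 hi))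
    · obtain ⟨j, hj, rfl⟩ := mem_image.1 h
      rw [mem_range] at hj
      intro x hx
      simp only [tri, mem_insert, mem_singleton] at hx
      rcases hx with rfl | rfl | rfl
      · exact mem_insert_self _ _
      · exact mem_insert_of_mem (mem_image_of_mem _ (mem_Icc.2 (by omega)))
      · exact mem_insert_of_mem (mem_image_of_mem _ (mem_Icc.2 (by omega)))
  · intro S hS
    rw [pts_card n (by omega)]
    rcases mem_union.1 hS with h | h
    · obtain ⟨i, hi, rfl⟩ := mem_image.1 h
      rw [seg_card]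
      omega
    · obtain ⟨j, hj, rfl⟩ := mem_image.1 h
      rw [tri_card]
      omega
  · intro S hS T hT _
    exact ⟨o, subset_convexHull ℝ _ (o_mem hS), subset_convexHull ℝ _ (o_mem hT)⟩
  · rintro S hS T hT U hU hST hSU hTU x ⟨⟨h1, h2⟩, h3⟩
    suffices x = o by rw [this]; exact mem_coe.2 (mem_insert_self _ _)
    rcases mem_union.1 hS with hS | hS <;> rcases mem_union.1 hT with hT | hT <;>
      rcases mem_union.1 hU with hU | hU <;> obtain ⟨i, _, rfl⟩ := mem_image.1 hS <;>
      obtain ⟨j, _, rfl⟩ := mem_image.1 hT <;> obtain ⟨k, _, rfl⟩ := mem_image.1 hU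
    · exact seg_seg hST h1 h2
    · exact seg_seg hST h1 h2
    · exact seg_seg hSU h1 h3
    · exact tri_tri hTU h2 h3
    · exact seg_seg hTU h2 h3
    · exact tri_tri hSU h1 h3
    · exact tri_tri hST h1 h2
    · exact tri_tri hST h1 h2

theorem seg_inj : Function.Injective seg := by
  intro i j h
  have : q i ∈ seg j := by rw [← h]; simp [seg]
  simp only [seg, mem_insert, mem_singleton] at this
  rcases this with h | h
  · exact absurd h.symm (o_ne_q i)
  · exact q_inj h

theorem tri_inj : Function.Injective tri := by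
  intro i j h
  have : q (2 * i + 1) ∈ tri j := by rw [← h]; simp [tri]
  simp only [tri, mem_insert, mem_singleton] at this
  rcases this with h | h | h
  · exact absurd h.symm (o_ne_q _)
  · have := q_inj h
    omega
  · have := q_inj h
    omega

theorem fam_card (n : ℕ) : (fam n).card = (n - 1) + (n - 1) / 2 := by
  unfold fam
  rw [card_union_of_disjoint, card_image_of_injective _ seg_inj,
    card_image_of_injective _ tri_inj, Nat.card_Icc, card_range]
  · simp
  · rw [disjoint_left]
    intro S h1 h2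
    obtain ⟨i, _, rfl⟩ := mem_image.1 h1
    obtain ⟨j, _, h⟩ := mem_image.1 h2
    have := congrArg Finset.card h
    rw [seg_card, tri_card] at this
    omega

/-- For every `n ≥ 5` some set `P` of `n` points of the plane has an admissible family of
`(n - 1) + ⌊(n - 1) / 2⌋` subsets, which is more than `n`. -/
theorem result : ∀ n : ℕ, 5 ≤ n →
    ∃ (P : Finset (ℝ × ℝ)) (F : Finset (Finset (ℝ × ℝ))),
      P.card = n ∧ Admissible P F ∧ F.card = (n - 1) + (n - 1) / 2 ∧ n < F.card := by
  intro n hn
  refine ⟨pts n, fam n, pts_card n (by omega), admissible n hn, fam_card n, ?_⟩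
  rw [fam_card]
  omega

end Pool.Agent.Results.MP_a31168_co.TooManyHulls
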